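import Mathlib

/-!
An everywhere divergent real trigonometric series with coefficients in every l^p, p greater than 2.
-/

open Filter Topology Finset

namespace Pool.Agent.Results.MP_85199e_an.ChirpBlocks

/-- amplitude on the block `4^k ≤ n < 4^(k+1)` -/
noncomputable def amp (n : ℕ) : ℝ := (1 / 2 : ℝ) ^ (Nat.log 4 n)

/-- quadratic phase on the block `4^k ≤ n < 4^(k+1)` -/
noncomputable def ph (n : ℕ) : ℝ := Real.pi * (n : ℝ) ^ 2 / (2 * 4 ^ (Nat.log 4 n))

noncomputable def ca (n : ℕ) : ℝ := amp n * Real.cos (ph n)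
noncomputable def cb (n : ℕ) : ℝ := -(amp n * Real.sin (ph n))

noncomputable def term (x : ℝ) (n : ℕ) : ℝ := ca n * Real.cos (n * x) + cb n * Real.sin (n * x)

lemma term_eq (x : ℝ) (n : ℕ) : term x n = amp n * Real.cos (ph n + n * x) := by
  unfold term ca cb
  rw [Real.cos_add]; ring

lemma amp_pos (n : ℕ) : 0 < amp n := by unfold amp; positivity

lemma amp_le (n : ℕ) : amp (n + 1) ≤ 2 * ((n + 1 : ℕ) : ℝ) ^ (-(1 / 2 : ℝ)) := by
  unfold amp
  set k := Nat.log 4 (n + 1) with hk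
  have h1 : n + 1 < 4 ^ (k + 1) := Nat.lt_pow_succ_log_self (by norm_num) _
  have h2 : ((n + 1 : ℕ) : ℝ) < 4 ^ (k + 1) := by exact_mod_cast h1
  have h3 : Real.sqrt ((n + 1 : ℕ) : ℝ) ≤ 2 ^ (k + 1) := by
    rw [Real.sqrt_le_left (by positivity)]
    have : ((2 : ℝ) ^ (k + 1)) ^ 2 = 4 ^ (k + 1) := by
      rw [← pow_mul, mul_comm, pow_mul]; norm_num
    rw [this]; exact h2.le
  have hn : (0 : ℝ) < ((n + 1 : ℕ) : ℝ) := by positivity
  rw [Real.rpow_neg hn.le, ← Real.sqrt_eq_rpow]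
  have hs : 0 < Real.sqrt ((n + 1 : ℕ) : ℝ) := Real.sqrt_pos.mpr hn
  rw [one_div, inv_pow]
  have h4 : (2 : ℝ) * (Real.sqrt ((n + 1 : ℕ) : ℝ))⁻¹ = 1 / (Real.sqrt ((n + 1 : ℕ) : ℝ) / 2) := by
    field_simp
  rw [h4, ← one_div]
  apply one_div_le_one_div_of_le (by positivity)
  rw [div_le_iff₀ (by norm_num)]
  calc Real.sqrt ((n + 1 : ℕ) : ℝ) ≤ 2 ^ (k + 1) := h3
    _ = 2 ^ k * 2 := by rw [pow_succ]

lemma summable_coeff (ε : ℝ) (hε : 0 < ε) :
    Summable (fun n : ℕ => |ca n| ^ (2 + ε) + |cb n| ^ (2 + ε)) := by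
  rw [← summable_nat_add_iff 1]
  have hs : Summable (fun n : ℕ => 2 * (2 : ℝ) ^ (2 + ε) * (((n + 1 : ℕ) : ℝ) ^ (1 + ε / 2))⁻¹) := by
    apply Summable.mul_left
    have := (summable_nat_add_iff 1).mpr (Real.summable_nat_rpow_inv.mpr (by linarith : 1 < 1 + ε / 2))
    exact this
  refine Summable.of_nonneg_of_le (fun n => by positivity) (fun n => ?_) hs
  have hn : (0 : ℝ) < ((n + 1 : ℕ) : ℝ) := by positivity
  have key : ∀ c : ℝ, |c| ≤ amp (n + 1) →
      |c| ^ (2 + ε) ≤ (2 : ℝ) ^ (2 + ε) * (((n + 1 : ℕ) : ℝ) ^ (1 + ε / 2))⁻¹ := by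
    intro c hc
    calc |c| ^ (2 + ε) ≤ (2 * ((n + 1 : ℕ) : ℝ) ^ (-(1 / 2 : ℝ))) ^ (2 + ε) :=
          Real.rpow_le_rpow (abs_nonneg _) (hc.trans (amp_le n)) (by linarith)
      _ = (2 : ℝ) ^ (2 + ε) * (((n + 1 : ℕ) : ℝ) ^ (1 + ε / 2))⁻¹ := by
          rw [Real.mul_rpow (by norm_num) (by positivity), ← Real.rpow_mul hn.le,
            ← Real.rpow_neg hn.le]
          congr 2; ring
  have ha : |ca (n + 1)| ≤ amp (n + 1) := by
    unfold ca
    rw [abs_mul, abs_of_pos (amp_pos _)]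
    exact mul_le_of_le_one_right (amp_pos _).le (Real.abs_cos_le_one _)
  have hb : |cb (n + 1)| ≤ amp (n + 1) := by
    unfold cb
    rw [abs_neg, abs_mul, abs_of_pos (amp_pos _)]
    exact mul_le_of_le_one_right (amp_pos _).le (Real.abs_sin_le_one _)
  have h1 := key _ ha
  have h2 := key _ hb
  linarith

lemma sum_Icc_add (f : ℕ → ℝ) (m L : ℕ) :
    ∑ n ∈ Icc 1 (m + L), f n = ∑ n ∈ Icc 1 m, f n + ∑ i ∈ range L, f (m + 1 + i) := by
  induction L with
  | zero => simp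
  | succ L ih =>
    rw [← add_assoc, Finset.sum_Icc_succ_top (by omega), ih, Finset.sum_range_succ]
    rw [show m + L + 1 = m + 1 + L by ring]; ring

/-- On a window where all phases stay within `d` of a fixed phase `t` (mod `2π`), the window sum
is close to `cos t` times the total amplitude. -/
lemma window (x : ℝ) (k m L : ℕ) (t d : ℝ)
    (hlog : ∀ i < L, Nat.log 4 (m + 1 + i) = k)
    (hph : ∀ i < L, |Real.cos (ph (m + 1 + i) + ((m + 1 + i : ℕ) : ℝ) * x) - Real.cos t| ≤ d) :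
    |∑ i ∈ range L, term x (m + 1 + i) - (1 / 2 : ℝ) ^ k * L * Real.cos t|
      ≤ (1 / 2 : ℝ) ^ k * L * d := by
  have h1 : ∑ i ∈ range L, term x (m + 1 + i) - (1 / 2 : ℝ) ^ k * L * Real.cos t
      = ∑ i ∈ range L, (1 / 2 : ℝ) ^ k *
        (Real.cos (ph (m + 1 + i) + ((m + 1 + i : ℕ) : ℝ) * x) - Real.cos t) := by
    have h2 : (1 / 2 : ℝ) ^ k * L * Real.cos t = ∑ i ∈ range L, (1 / 2 : ℝ) ^ k * Real.cos t := by
      rw [Finset.sum_const, Finset.card_range, nsmul_eq_mul]; ring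
    rw [h2, ← Finset.sum_sub_distrib]
    apply Finset.sum_congr rfl
    intro i hi
    rw [term_eq, amp, hlog i (Finset.mem_range.mp hi)]; ring
  rw [h1]
  calc |∑ i ∈ range L, (1 / 2 : ℝ) ^ k *
        (Real.cos (ph (m + 1 + i) + ((m + 1 + i : ℕ) : ℝ) * x) - Real.cos t)|
      ≤ ∑ i ∈ range L, |(1 / 2 : ℝ) ^ k *
        (Real.cos (ph (m + 1 + i) + ((m + 1 + i : ℕ) : ℝ) * x) - Real.cos t)| :=
        Finset.abs_sum_le_sum_abs _ _
    _ ≤ ∑ i ∈ range L, (1 / 2 : ℝ) ^ k * d := by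
        apply Finset.sum_le_sum
        intro i hi
        rw [abs_mul, abs_of_pos (by positivity : (0 : ℝ) < (1 / 2) ^ k)]
        exact mul_le_mul_of_nonneg_left (hph i (Finset.mem_range.mp hi)) (by positivity)
    _ = (1 / 2 : ℝ) ^ k * L * d := by
        rw [Finset.sum_const, Finset.card_range, nsmul_eq_mul]; ring

lemma cos_lip (s t : ℝ) : |Real.cos s - Real.cos t| ≤ |s - t| := by
  rw [Real.cos_sub_cos]
  have h1 : |Real.sin ((s + t) / 2)| ≤ 1 := Real.abs_sin_le_one _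
  have h2 : |Real.sin ((s - t) / 2)| ≤ |(s - t) / 2| := Real.abs_sin_le_abs
  rw [abs_mul, abs_mul]
  have h3 : |(s - t) / 2| = |s - t| / 2 := by rw [abs_div]; norm_num
  rw [h3] at h2
  have h4 : |(-2 : ℝ)| = 2 := by norm_num
  rw [h4]
  calc 2 * |Real.sin ((s + t) / 2)| * |Real.sin ((s - t) / 2)|
      ≤ 2 * 1 * (|s - t| / 2) := by
        apply mul_le_mul _ h2 (abs_nonneg _) (by norm_num)
        linarith
    _ = |s - t| := by ring

/-- The stationary point: an integer `n₀` in `[N, 3N)` at which the phase increment is almost a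
multiple of `2π`. -/
lemma stationary (N : ℕ) (hN : 0 < N) (x : ℝ) :
    ∃ (n₀ : ℕ) (q : ℤ), N ≤ n₀ ∧ n₀ < 3 * N ∧
      0 ≤ Real.pi * n₀ / N + x - 2 * Real.pi * q ∧
      Real.pi * n₀ / N + x - 2 * Real.pi * q ≤ Real.pi / N := by
  set c : ℤ := ⌈-(N * x / Real.pi)⌉ with hc
  have hNr : (0 : ℝ) < N := by exact_mod_cast hN
  have hpi := Real.pi_pos
  have h1 : -(N * x / Real.pi) ≤ c := Int.le_ceil _
  have h2 : (c : ℝ) < -(N * x / Real.pi) + 1 := Int.ceil_lt_add_one _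
  have hN2 : (0 : ℤ) < 2 * N := by exact_mod_cast (by omega : 0 < 2 * N)
  obtain ⟨r, hr⟩ : ∃ r : ℕ, (r : ℤ) = (c - N) % (2 * N) :=
    ⟨((c - N) % (2 * N)).toNat, Int.toNat_of_nonneg (Int.emod_nonneg _ hN2.ne')⟩
  have hr2 : (r : ℤ) < 2 * N := by rw [hr]; exact Int.emod_lt_of_pos _ hN2
  have hdiv := Int.emod_add_mul_ediv (c - N) (2 * N)
  set e : ℤ := (c - N) / (2 * N) with he
  have hcr : (c : ℤ) = N + r + 2 * N * e := by rw [hr]; linarith
  refine ⟨N + r, -e, by omega, by omega, ?_, ?_⟩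
  · have hcr' : (c : ℝ) = N + r + 2 * N * e := by exact_mod_cast hcr
    push_cast
    rw [hcr'] at h1
    have h3 : -(N * x) ≤ (N + r + 2 * N * e) * Real.pi := by
      have := mul_le_mul_of_nonneg_right h1 hpi.le
      rwa [neg_mul, div_mul_cancel₀ _ hpi.ne'] at this
    have h4 : Real.pi * (N + r) / N + x - 2 * Real.pi * -e
        = ((N + r + 2 * N * e) * Real.pi + N * x) / N := by
      field_simp; ring
    rw [h4]
    apply div_nonneg _ hNr.le
    linarith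
  · have hcr' : (c : ℝ) = N + r + 2 * N * e := by exact_mod_cast hcr
    push_cast
    rw [hcr'] at h2
    have h3 : (N + r + 2 * N * e) * Real.pi ≤ -(N * x) + Real.pi := by
      have := mul_le_mul_of_nonneg_right h2.le hpi.le
      have h5 : (-(N * x / Real.pi) + 1) * Real.pi = -(N * x) + Real.pi := by
        field_simp
      linarith
    have h4 : Real.pi * (N + r) / N + x - 2 * Real.pi * -e
        = ((N + r + 2 * N * e) * Real.pi + N * x) / N := by
      field_simp; ring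
    rw [h4]
    apply div_le_div_of_nonneg_right _ hNr.le
    linarith

/-- phase identity inside one block -/
lemma phase_id (x : ℝ) (k n₀ j : ℕ) (q : ℤ) (h : Nat.log 4 (n₀ + j) = k)
    (h0 : Nat.log 4 n₀ = k) :
    Real.cos (ph (n₀ + j) + ((n₀ + j : ℕ) : ℝ) * x)
      = Real.cos ((ph n₀ + n₀ * x) +
        (j * (Real.pi * n₀ / (4 ^ k : ℕ) + x - 2 * Real.pi * q)
          + Real.pi * (j : ℝ) ^ 2 / (2 * (4 ^ k : ℕ)))) := by
  have hk : ((4 : ℝ) ^ k) ≠ 0 := by positivity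
  have h1 : ph (n₀ + j) + ((n₀ + j : ℕ) : ℝ) * x
      = ((ph n₀ + n₀ * x) +
        (j * (Real.pi * n₀ / (4 ^ k : ℕ) + x - 2 * Real.pi * q)
          + Real.pi * (j : ℝ) ^ 2 / (2 * (4 ^ k : ℕ)))) + ((j * q : ℤ) : ℝ) * (2 * Real.pi) := by
    unfold ph
    rw [h, h0]
    push_cast
    field_simp
    ring
  rw [h1, Real.cos_add_int_mul_two_pi]

set_option maxHeartbeats 4000000 in
theorem diverges (x : ℝ) :
    ¬ ∃ l : ℝ, Tendsto (fun N : ℕ => ∑ n ∈ Icc 1 N, term x n) atTop (𝓝 l) := by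
  rintro ⟨l, hl⟩
  have hcau := hl.cauchySeq
  rw [Metric.cauchySeq_iff] at hcau
  obtain ⟨N₀, hN₀⟩ := hcau (1 / 100) (by norm_num)
  set j := N₀ + 4 with hj
  set L : ℕ := 2 ^ j with hL
  set k := j + 4 with hk
  have hLN : N₀ + 1 ≤ L := by
    have : j < 2 ^ j := Nat.lt_two_pow_self
    omega
  have hL16 : 16 ≤ L := by
    rw [hL, hj, pow_add]
    have : 1 ≤ 2 ^ N₀ := Nat.one_le_two_pow
    omega
  have h4k : 4 ^ k = 256 * L ^ 2 := by
    rw [hk, hL, pow_add, ← pow_mul, mul_comm j 2, pow_mul]; norm_num; ring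
  have h2k : (2 : ℝ) ^ k = 16 * L := by
    rw [hk, hL, pow_add]; push_cast; ring
  have hpos : 0 < 4 ^ k := by positivity
  obtain ⟨n₀, q, hn1, hn2, hr1, hr2⟩ := stationary (4 ^ k) hpos x
  set r := Real.pi * n₀ / (4 ^ k : ℕ) + x - 2 * Real.pi * q with hr
  have hLL : L ≤ L ^ 2 := Nat.le_self_pow (by norm_num) L
  have hn₀ : L ≤ n₀ := by
    rw [h4k] at hn1; omega
  have hlogj : ∀ i, i < 17 * L → Nat.log 4 (n₀ + i) = k := by
    intro i hi
    rw [Nat.log_eq_iff (Or.inr ⟨by norm_num, by omega⟩)]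
    constructor
    · omega
    · rw [pow_succ]
      rw [h4k] at hn2 ⊢
      nlinarith
  have hlog0 : Nat.log 4 n₀ = k := by simpa using hlogj 0 (by omega)
  have hLr : (16 : ℝ) ≤ L := by exact_mod_cast hL16
  have hLr0 : (0 : ℝ) < L := by linarith
  have hNr : ((4 ^ k : ℕ) : ℝ) = 256 * (L : ℝ) ^ 2 := by rw [h4k]; push_cast; ring
  have hamp : (1 / 2 : ℝ) ^ k * L = 1 / 16 := by
    rw [one_div, inv_pow, h2k]; field_simp
  have hpi3 : Real.pi < 63 / 20 := by have := Real.pi_lt_d2; norm_num at this ⊢; linarith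
  have hpi0 := Real.pi_pos
  set T := ph n₀ + n₀ * x with hT
  -- first window
  have hw1 : |∑ i ∈ range L, term x ((n₀ - 1) + 1 + i) - (1 / 2 : ℝ) ^ k * L * Real.cos T|
      ≤ (1 / 2 : ℝ) ^ k * L * (3 / 100) := by
    apply window
    · intro i hi
      rw [show n₀ - 1 + 1 + i = n₀ + i by omega]
      exact hlogj i (by omega)
    · intro i hi
      rw [show n₀ - 1 + 1 + i = n₀ + i by omega]
      rw [phase_id x k n₀ i q (hlogj i (by omega)) hlog0]
      refine (cos_lip _ _).trans ?_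
      rw [← hr, ← hT, add_sub_cancel_left]
      have hi' : (i : ℝ) ≤ L := by exact_mod_cast hi.le
      have hi0 : (0 : ℝ) ≤ i := Nat.cast_nonneg _
      have e1 : (i : ℝ) * r ≤ L * (Real.pi / (256 * (L : ℝ) ^ 2)) := by
        rw [← hNr]
        exact mul_le_mul hi' hr2 hr1 hLr0.le
      have e2 : (L : ℝ) * (Real.pi / (256 * (L : ℝ) ^ 2)) = Real.pi / (256 * L) := by
        field_simp
      have e3 : Real.pi / (256 * L) ≤ (63 / 20) / (256 * 16) := by
        apply div_le_div₀ (by norm_num) hpi3.le (by norm_num)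
        nlinarith
      have e4 : Real.pi * (i : ℝ) ^ 2 / (2 * (4 ^ k : ℕ)) ≤ (63 / 20) * (L : ℝ) ^ 2 / (2 * (256 * (L : ℝ) ^ 2)) := by
        rw [hNr]
        apply div_le_div_of_nonneg_right _ (by positivity)
        apply mul_le_mul hpi3.le _ (by positivity) (by norm_num)
        exact pow_le_pow_left₀ hi0 hi' 2
      have e5 : (63 / 20) * (L : ℝ) ^ 2 / (2 * (256 * (L : ℝ) ^ 2)) = (63 / 20) / 512 := by
        field_simp; norm_num
      rw [e2] at e1
      rw [e5] at e4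
      have e6 : 0 ≤ (i : ℝ) * r := mul_nonneg hi0 hr1
      have e7 : 0 ≤ Real.pi * (i : ℝ) ^ 2 / (2 * (4 ^ k : ℕ)) := by positivity
      rw [abs_of_nonneg (by linarith)]
      norm_num at e1 e3 e4 ⊢
      linarith
  -- second window
  have hw2 : |∑ i ∈ range L, term x ((n₀ + 16 * L - 1) + 1 + i)
        - (1 / 2 : ℝ) ^ k * L * Real.cos (T + Real.pi / 2)|
      ≤ (1 / 2 : ℝ) ^ k * L * (1 / 4) := by
    apply window
    · intro i hi
      rw [show n₀ + 16 * L - 1 + 1 + i = n₀ + (16 * L + i) by omega]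
      exact hlogj _ (by omega)
    · intro i hi
      rw [show n₀ + 16 * L - 1 + 1 + i = n₀ + (16 * L + i) by omega]
      rw [phase_id x k n₀ (16 * L + i) q (hlogj _ (by omega)) hlog0]
      refine (cos_lip _ _).trans ?_
      rw [← hr, ← hT]
      have hi' : (i : ℝ) ≤ L := by exact_mod_cast hi.le
      have hi0 : (0 : ℝ) ≤ i := Nat.cast_nonneg _
      have hJ : ((16 * L + i : ℕ) : ℝ) = 16 * L + i := by push_cast; ring
      rw [hJ]
      have e1 : (16 * (L : ℝ) + i) * r ≤ (17 * L) * (Real.pi / (256 * (L : ℝ) ^ 2)) := by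
        rw [← hNr]
        exact mul_le_mul (by linarith) hr2 hr1 (by positivity)
      have e2 : (17 * (L : ℝ)) * (Real.pi / (256 * (L : ℝ) ^ 2)) = 17 * (Real.pi / (256 * L)) := by
        field_simp
      have e3 : Real.pi / (256 * L) ≤ (63 / 20) / (256 * 16) := by
        apply div_le_div₀ (by norm_num) hpi3.le (by norm_num)
        nlinarith
      have e4 : Real.pi * (16 * (L : ℝ) + i) ^ 2 / (2 * (4 ^ k : ℕ))
          = Real.pi / 2 + Real.pi * (32 * L * i + (i : ℝ) ^ 2) / (2 * (256 * (L : ℝ) ^ 2)) := by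
        rw [hNr]; field_simp; ring
      have e5 : Real.pi * (32 * L * i + (i : ℝ) ^ 2) / (2 * (256 * (L : ℝ) ^ 2))
          ≤ (63 / 20) * (33 * (L : ℝ) ^ 2) / (2 * (256 * (L : ℝ) ^ 2)) := by
        apply div_le_div_of_nonneg_right _ (by positivity)
        apply mul_le_mul hpi3.le _ (by positivity) (by norm_num)
        nlinarith
      have e5' : (63 / 20) * (33 * (L : ℝ) ^ 2) / (2 * (256 * (L : ℝ) ^ 2)) = (63 / 20) * 33 / 512 := by
        field_simp; norm_num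
      rw [e2] at e1
      rw [e5'] at e5
      rw [e4]
      have e6 : 0 ≤ (16 * (L : ℝ) + i) * r := mul_nonneg (by positivity) hr1
      have e7 : 0 ≤ Real.pi * (32 * L * i + (i : ℝ) ^ 2) / (2 * (256 * (L : ℝ) ^ 2)) := by positivity
      rw [show T + ((16 * (L : ℝ) + i) * r + (Real.pi / 2 + Real.pi * (32 * L * i + (i : ℝ) ^ 2) / (2 * (256 * (L : ℝ) ^ 2)))) - (T + Real.pi / 2) = (16 * (L : ℝ) + i) * r + Real.pi * (32 * L * i + (i : ℝ) ^ 2) / (2 * (256 * (L : ℝ) ^ 2)) by ring]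
      rw [abs_of_nonneg (by linarith)]
      norm_num at e1 e3 e5 ⊢
      linarith
  -- Cauchy bounds
  have hc1 : |∑ i ∈ range L, term x ((n₀ - 1) + 1 + i)| < 1 / 100 := by
    have := hN₀ ((n₀ - 1) + L) (by omega) (n₀ - 1) (by omega)
    rw [Real.dist_eq, sum_Icc_add, add_sub_cancel_left] at this
    exact this
  have hc2 : |∑ i ∈ range L, term x ((n₀ + 16 * L - 1) + 1 + i)| < 1 / 100 := by
    have := hN₀ ((n₀ + 16 * L - 1) + L) (by omega) (n₀ + 16 * L - 1) (by omega)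
    rw [Real.dist_eq, sum_Icc_add, add_sub_cancel_left] at this
    exact this
  rw [hamp] at hw1 hw2
  rw [Real.cos_add_pi_div_two] at hw2
  set C := Real.cos T
  set S := Real.sin T
  have hCS : C ^ 2 + S ^ 2 = 1 := Real.cos_sq_add_sin_sq T
  have b1 : |C| ≤ 1 / 5 := by
    rw [abs_le] at hw1 ⊢
    rw [abs_lt] at hc1
    obtain ⟨u1, u2⟩ := hw1
    obtain ⟨v1, v2⟩ := hc1
    constructor <;> linarith
  have b2 : |S| ≤ 9 / 20 := by
    rw [abs_le] at hw2 ⊢
    rw [abs_lt] at hc2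
    obtain ⟨u1, u2⟩ := hw2
    obtain ⟨v1, v2⟩ := hc2
    constructor <;> linarith
  have c1 : C ^ 2 ≤ (1 / 5) ^ 2 := by
    rw [← sq_abs C]; exact pow_le_pow_left₀ (abs_nonneg _) b1 2
  have c2 : S ^ 2 ≤ (9 / 20) ^ 2 := by
    rw [← sq_abs S]; exact pow_le_pow_left₀ (abs_nonneg _) b2 2
  norm_num at c1 c2
  linarith

/-- There is a real trigonometric series that diverges at every real point and whose coefficients
belong to `ℓ^p` for every `p > 2`. -/
theorem result : ∃ a b : ℕ → ℝ,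
    (∀ ε : ℝ, 0 < ε → Summable (fun n : ℕ => |a n| ^ (2 + ε) + |b n| ^ (2 + ε))) ∧
    (∀ x : ℝ, ¬ ∃ l : ℝ, Tendsto
      (fun N : ℕ => ∑ n ∈ Icc 1 N, (a n * Real.cos (n * x) + b n * Real.sin (n * x)))
      atTop (𝓝 l)) :=
  ⟨ca, cb, summable_coeff, diverges⟩

end Pool.Agent.Results.MP_85199e_an.ChirpBlocks
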